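import Mathlib

/-!
U137/GV (helper137): lower bounds for binomial coefficients and for the volume of Hamming balls.
`ent_term`, `ent_eq` and `choose_ge` are copied from Y570/LS/Ent.lean of helper570.
-/

set_option autoImplicit false

namespace Pool.Agent.U137.GV

open Finset Filter

lemma ent_term {p : ℝ} (hp0 : 0 < p) (hp1 : p < 1) (n w : ℕ) (hw : w ≤ n) :
    p ^ w * (1 - p) ^ (n - w) =
      Real.exp (w * Real.log p + (n - w) * Real.log (1 - p)) := by
  have h1 : 0 < 1 - p := by linarith
  rw [Real.exp_add, mul_comm (w : ℝ), Real.exp_mul, Real.exp_log hp0]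
  have h2 : ((n : ℝ) - w) * Real.log (1 - p) = Real.log (1 - p) * ((n - w : ℕ) : ℝ) := by
    rw [Nat.cast_sub hw]
    ring
  rw [h2, Real.exp_mul, Real.exp_log h1, Real.rpow_natCast, Real.rpow_natCast]

lemma ent_eq (p : ℝ) (n : ℝ) : n * Real.binEntropy p =
    -(n * p * Real.log p + (n - n * p) * Real.log (1 - p)) := by
  unfold Real.binEntropy
  rw [Real.log_inv, Real.log_inv]
  ring

/-- the lower bound for a binomial coefficient -/
lemma choose_ge {n j : ℕ} (hj : 1 ≤ j) (hjn : j < n) :
    Real.exp (n * Real.binEntropy (j / n)) ≤ (n + 1) * (n.choose j : ℝ) := by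
  have hn : (0 : ℝ) < n := by exact_mod_cast (by omega : 0 < n)
  have hj0 : (0 : ℝ) < j := by exact_mod_cast (by omega : 0 < j)
  have hjn' : (j : ℝ) < n := by exact_mod_cast hjn
  obtain ⟨p, hp⟩ : ∃ p : ℝ, p = j / n := ⟨_, rfl⟩
  have hnp : n * p = j := by
    rw [hp]
    field_simp
  have hp0 : 0 < p := by
    rw [hp]
    positivity
  have hp1 : p < 1 := by
    rw [hp, div_lt_one hn]
    exact hjn'
  have hq : 0 < 1 - p := by linarith
  obtain ⟨a, ha⟩ : ∃ a : ℕ → ℝ, a = fun w => p ^ w * (1 - p) ^ (n - w) * (n.choose w : ℝ) :=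
    ⟨_, rfl⟩
  have ha' : ∀ w, a w = p ^ w * (1 - p) ^ (n - w) * (n.choose w : ℝ) := fun w => by rw [ha]
  have ha0 : ∀ w, 0 ≤ a w := by
    intro w
    rw [ha']
    positivity
  have hrec : ∀ w, w < n → a (w + 1) * ((w + 1) * (1 - p)) = a w * ((n - w) * p) := by
    intro w hw
    rw [ha', ha']
    have h1 : (n.choose (w + 1) : ℝ) * (w + 1) = n.choose w * (n - w) := by
      have := Nat.choose_succ_right_eq n w
      have h2 : ((n.choose (w + 1) * (w + 1) : ℕ) : ℝ) = ((n.choose w * (n - w) : ℕ) : ℝ) := by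
        rw [this]
      push_cast [Nat.cast_sub hw.le] at h2
      exact h2
    have h2 : (1 - p) ^ (n - w) = (1 - p) ^ (n - (w + 1)) * (1 - p) := by
      rw [← pow_succ]
      congr 1
      omega
    rw [h2, pow_succ]
    calc p ^ w * p * (1 - p) ^ (n - (w + 1)) * (n.choose (w + 1) : ℝ) * ((w + 1) * (1 - p))
        = p ^ w * p * (1 - p) ^ (n - (w + 1)) * (1 - p) * ((n.choose (w + 1) : ℝ) * (w + 1)) := by
          ring
      _ = _ := by
          rw [h1]
          ring
  have hup : ∀ w, w < j → a w ≤ a (w + 1) := by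
    intro w hw
    have h1 := hrec w (by omega)
    have hwj : (w : ℝ) + 1 ≤ j := by exact_mod_cast hw
    have h2 : ((w : ℝ) + 1) * (1 - p) ≤ (n - w) * p := by
      have : (n : ℝ) * (((w : ℝ) + 1) * (1 - p)) ≤ n * ((n - w) * p) := by
        have e1 : (n : ℝ) * (((w : ℝ) + 1) * (1 - p)) = (w + 1) * (n - j) := by
          rw [← hnp]
          ring
        have e2 : (n : ℝ) * ((n - w) * p) = (n - w) * j := by
          rw [← hnp]
          ring
        rw [e1, e2]
        nlinarith
      exact le_of_mul_le_mul_left this hn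
    have h3 : a w * ((n - w) * p) ≤ a (w + 1) * ((n - w) * p) := by
      rw [← h1]
      exact mul_le_mul_of_nonneg_left h2 (ha0 _)
    refine le_of_mul_le_mul_right h3 (mul_pos ?_ hp0)
    linarith
  have hdown : ∀ w, j ≤ w → w < n → a (w + 1) ≤ a w := by
    intro w hw hwn
    have h1 := hrec w hwn
    have hwj : (j : ℝ) ≤ w := by exact_mod_cast hw
    have h2 : ((n : ℝ) - w) * p ≤ (w + 1) * (1 - p) := by
      have : (n : ℝ) * ((n - w) * p) ≤ n * ((w + 1) * (1 - p)) := by
        have e1 : (n : ℝ) * (((w : ℝ) + 1) * (1 - p)) = (w + 1) * (n - j) := by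
          rw [← hnp]
          ring
        have e2 : (n : ℝ) * ((n - w) * p) = (n - w) * j := by
          rw [← hnp]
          ring
        rw [e1, e2]
        nlinarith
      exact le_of_mul_le_mul_left this hn
    have h3 : a (w + 1) * ((w + 1) * (1 - p)) ≤ a w * ((w + 1) * (1 - p)) := by
      rw [h1]
      exact mul_le_mul_of_nonneg_left h2 (ha0 _)
    exact le_of_mul_le_mul_right h3 (by positivity)
  have h1 : ∀ w, w ≤ j → a w ≤ a j := by
    intro w hw
    obtain ⟨k, rfl⟩ := Nat.exists_eq_add_of_le hw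
    clear hw
    have : ∀ i, i ≤ k → a w ≤ a (w + i) := by
      intro i
      induction i with
      | zero => intro _; exact le_rfl
      | succ i ih =>
        intro hi
        exact (ih (by omega)).trans (hup (w + i) (by omega))
    exact this k le_rfl
  have h2 : ∀ w, j ≤ w → w ≤ n → a w ≤ a j := by
    intro w hw
    induction w, hw using Nat.le_induction with
    | base => intro _; exact le_rfl
    | succ w hw ih =>
      intro hwn
      exact (hdown w hw (by omega)).trans (ih (by omega))
  have h3 : (1 : ℝ) ≤ (n + 1) * a j := by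
    have h4 : ((p + (1 - p)) ^ n : ℝ) = 1 := by
      rw [add_sub_cancel, one_pow]
    rw [add_pow] at h4
    refine h4.symm.le.trans ?_
    calc ∑ w ∈ range (n + 1), p ^ w * (1 - p) ^ (n - w) * (n.choose w : ℝ)
        ≤ ∑ _w ∈ range (n + 1), a j := by
          refine Finset.sum_le_sum fun w hw => ?_
          rw [← ha']
          rcases le_total w j with h | h
          · exact h1 w h
          · exact h2 w h (by have := Finset.mem_range.1 hw; omega)
      _ = (n + 1) * a j := by
          rw [Finset.sum_const, Finset.card_range, nsmul_eq_mul]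
          push_cast
          ring
  rw [ha', ent_term hp0 hp1 n j hjn.le] at h3
  rw [← hp, ent_eq, hnp, Real.exp_neg, inv_le_comm₀ (Real.exp_pos _)]
  · rw [inv_le_iff_one_le_mul₀]
    · calc (1 : ℝ) ≤ _ := h3
        _ = _ := by ring
    · have : (0 : ℝ) < n.choose j := by exact_mod_cast Nat.choose_pos hjn.le
      positivity
  · have : (0 : ℝ) < n.choose j := by exact_mod_cast Nat.choose_pos hjn.le
    positivity


lemma ev_ge (c : ℝ) : ∀ᶠ n : ℕ in atTop, c ≤ (n : ℝ) :=
  tendsto_natCast_atTop_atTop.eventually_ge_atTop c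

/-- the lower bound for binomial coefficients, asymptotic form -/
lemma choose_low {x : ℝ} (h0 : 0 < x) (h1 : x < 1) {ε : ℝ} (hε : 0 < ε) :
    ∃ η : ℝ, 0 < η ∧ ∀ᶠ n : ℕ in atTop, ∀ j : ℕ, |(j : ℝ) - x * n| ≤ η * n →
      Real.exp ((Real.binEntropy x - ε) * n) ≤ n.choose j := by
  have hc : ∀ᶠ y in nhds x, Real.binEntropy x - ε / 2 < Real.binEntropy y :=
    (Real.binEntropy_continuous.tendsto x).eventually (lt_mem_nhds (by linarith))
  obtain ⟨η₁, hη₁, hball⟩ := Metric.eventually_nhds_iff.1 hc
  have hm : 0 < min x (1 - x) := lt_min h0 (by linarith)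
  refine ⟨min (η₁ / 2) (min x (1 - x) / 2), lt_min (by positivity) (by positivity), ?_⟩
  filter_upwards [ev_ge (16 / ε ^ 2), ev_ge (4 / ε), eventually_ge_atTop 1] with n hn hn4 hn1 j hj
  have hnR : (1 : ℝ) ≤ n := by exact_mod_cast hn1
  have hn0 : (0 : ℝ) < n := by linarith
  have hj1 : |(j : ℝ) - x * n| ≤ η₁ / 2 * n :=
    hj.trans (mul_le_mul_of_nonneg_right (min_le_left _ _) hn0.le)
  have hj2 : |(j : ℝ) - x * n| ≤ min x (1 - x) / 2 * n :=
    hj.trans (mul_le_mul_of_nonneg_right (min_le_right _ _) hn0.le)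
  rw [abs_le] at hj2
  have m1 : min x (1 - x) ≤ x := min_le_left _ _
  have m2 : min x (1 - x) ≤ 1 - x := min_le_right _ _
  have hjpos : (0 : ℝ) < j := by nlinarith
  have hjlt : (j : ℝ) < n := by nlinarith
  have hj3 : 1 ≤ j := by exact_mod_cast hjpos
  have hj4 : j < n := by exact_mod_cast hjlt
  have h2 := choose_ge hj3 hj4
  have h3 : Real.binEntropy x - ε / 2 < Real.binEntropy (j / n) := by
    apply hball
    rw [Real.dist_eq]
    have e1 : (j : ℝ) / n - x = (j - x * n) / n := by field_simp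
    rw [e1, abs_div, abs_of_pos hn0, div_lt_iff₀ hn0]
    nlinarith
  have h5 : Real.exp ((Real.binEntropy x - ε / 2) * n) ≤
      Real.exp (n * Real.binEntropy (j / n)) := by
    apply Real.exp_le_exp.2
    rw [mul_comm (n : ℝ)]
    exact mul_le_mul_of_nonneg_right h3.le hn0.le
  have h6 : (n : ℝ) + 1 ≤ Real.exp (ε / 2 * n) := by
    -- exp y ≥ 1 + y + y²/2
    have h7 := Real.quadratic_le_exp_of_nonneg (x := ε / 2 * n) (by positivity)
    rw [div_le_iff₀ (by positivity)] at hn
    have h8 : (n : ℝ) ≤ (ε / 2 * n) ^ 2 / 2 := by nlinarith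
    have h9 : 0 ≤ ε / 2 * n := by positivity
    linarith
  have hC : (0 : ℝ) ≤ n.choose j := Nat.cast_nonneg _
  have h7 : Real.exp ((Real.binEntropy x - ε) * n) * Real.exp (ε / 2 * n) ≤
      (n.choose j : ℝ) * Real.exp (ε / 2 * n) := by
    rw [← Real.exp_add]
    have e1 : (Real.binEntropy x - ε) * n + ε / 2 * n = (Real.binEntropy x - ε / 2) * n := by ring
    rw [e1]
    calc Real.exp ((Real.binEntropy x - ε / 2) * n) ≤ _ := h5
      _ ≤ (n + 1) * (n.choose j : ℝ) := h2
      _ ≤ Real.exp (ε / 2 * n) * (n.choose j : ℝ) := mul_le_mul_of_nonneg_right h6 hC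
      _ = _ := by ring
  exact le_of_mul_le_mul_right h7 (Real.exp_pos _)

/-- the volume of a Hamming ball -/
lemma vol_ge {F : Type} [Field F] [Fintype F] [DecidableEq F] (n t : ℕ) :
    n.choose t * (Fintype.card F - 1) ^ t ≤
      (univ.filter (fun y : Fin n → F => hammingNorm y ≤ t)).card := by
  classical
  obtain ⟨P, hP⟩ : ∃ P : Finset (Fin n) → Finset (Fin n → F),
      P = fun S => Fintype.piFinset (fun i => if i ∈ S then univ.erase (0 : F) else {0}) :=
    ⟨_, rfl⟩
  have hmem : ∀ S y, y ∈ P S ↔ ∀ i, (i ∈ S ↔ y i ≠ 0) := by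
    intro S y
    rw [hP, Fintype.mem_piFinset]
    refine forall_congr' fun i => ?_
    by_cases h : i ∈ S <;> simp [h]
  have hcard : ∀ S ∈ (univ : Finset (Fin n)).powersetCard t,
      (P S).card = (Fintype.card F - 1) ^ t := by
    intro S hS
    rw [Finset.mem_powersetCard] at hS
    rw [hP, Fintype.card_piFinset]
    have h1 : ∀ i : Fin n, (if i ∈ S then univ.erase (0 : F) else {0}).card =
        if i ∈ S then (Fintype.card F - 1) else 1 := by
      intro i
      by_cases h : i ∈ S
      · simp [h, Finset.card_erase_of_mem]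
      · simp [h]
    rw [Finset.prod_congr rfl (fun i _ => h1 i), Finset.prod_ite_mem, Finset.univ_inter,
      Finset.prod_const, hS.2]
  have hU : ((univ : Finset (Fin n)).powersetCard t).biUnion P ⊆
      univ.filter (fun y : Fin n → F => hammingNorm y ≤ t) := by
    intro y hy
    rw [Finset.mem_biUnion] at hy
    obtain ⟨S, hS, hy⟩ := hy
    rw [Finset.mem_powersetCard] at hS
    rw [hmem] at hy
    rw [Finset.mem_filter]
    refine ⟨Finset.mem_univ _, ?_⟩
    unfold hammingNorm
    rw [← hS.2]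
    apply Finset.card_le_card
    intro i hi
    rw [Finset.mem_filter] at hi
    exact (hy i).2 hi.2
  refine le_trans (le_of_eq ?_) (Finset.card_le_card hU)
  rw [Finset.card_biUnion, Finset.sum_congr rfl hcard, Finset.sum_const, Finset.card_powersetCard,
    Finset.card_univ, Fintype.card_fin, smul_eq_mul]
  intro S _ S' _ hne
  change Disjoint (P S) (P S')
  rw [Finset.disjoint_left]
  intro y hy hy'
  apply hne
  rw [hmem] at hy hy'
  ext i
  rw [hy i, hy' i]

end Pool.Agent.U137.GV
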