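import Pool.Agent.U137.GV.Sub
import Pool.Agent.U137.GV.Chs

/-!
U137/GV (helper137): linear codes over a finite field beyond the Gilbert-Varshamov bound are
rare at the scale `q ^ (-c n²)`.
-/

set_option autoImplicit false

namespace Pool.Agent.U137.GV

open Finset Filter

/-- the `q`-ary entropy function, in natural logarithms -/
noncomputable def EE (q x : ℝ) : ℝ := x * Real.log (q - 1) + Real.binEntropy x

lemma EE_cont (q : ℝ) : Continuous (EE q) := by
  unfold EE
  exact (continuous_id.mul continuous_const).add Real.binEntropy_continuous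

lemma EE_le {q x : ℝ} (hq : 2 ≤ q) (h0 : 0 < x) (h1 : x < 1) : EE q x ≤ Real.log q := by
  unfold EE Real.binEntropy
  have hq0 : 0 < q := by linarith
  have hq1 : 0 < q - 1 := by linarith
  have hx1 : 0 < 1 - x := by linarith
  rw [Real.log_inv, Real.log_inv]
  have h2 := Real.log_le_sub_one_of_pos (x := (q - 1) / (q * x)) (by positivity)
  have h3 := Real.log_le_sub_one_of_pos (x := 1 / (q * (1 - x))) (by positivity)
  rw [Real.log_div hq1.ne' (by positivity), Real.log_mul hq0.ne' h0.ne'] at h2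
  rw [Real.log_div one_ne_zero (by positivity), Real.log_one, Real.log_mul hq0.ne' hx1.ne'] at h3
  have h4 : x * ((q - 1) / (q * x) - 1) + (1 - x) * (1 / (q * (1 - x)) - 1) = 0 := by
    field_simp
    ring
  have h5 := mul_le_mul_of_nonneg_left h2 h0.le
  have h6 := mul_le_mul_of_nonneg_left h3 hx1.le
  nlinarith

/-- **Linear codes beyond the Gilbert-Varshamov bound are rare.** -/
theorem rare {F : Type} [Field F] [Fintype F] [DecidableEq F] {δ η : ℝ} (h0 : 0 < δ)
    (h1 : δ < 1) (hη : 0 < η) :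
    ∃ c : ℝ, 0 < c ∧ ∀ᶠ n : ℕ in atTop, ∀ k : ℕ, k ≤ n →
      (1 - EE (Fintype.card F) δ / Real.log (Fintype.card F) + η) * n ≤ k →
      (num F n k (fun C => ∃ x : Fin n → F, ∀ w ∈ C, w + x ≠ 0 →
        δ * n ≤ (hammingNorm (w + x) : ℝ)) : ℝ) ≤
        (Fintype.card F : ℝ) ^ (-(c * (n : ℝ) ^ 2)) * numAll F n k := by
  classical
  have hq := two_le_card (F := F)
  obtain ⟨q, hqq⟩ : ∃ q : ℝ, q = (Fintype.card F : ℝ) := ⟨_, rfl⟩
  have hq2 : (2 : ℝ) ≤ q := by rw [hqq]; exact_mod_cast hq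
  have hq0 : (0 : ℝ) < q := by linarith
  have hq1 : (1 : ℝ) ≤ q - 1 := by linarith
  obtain ⟨L, hL⟩ : ∃ L : ℝ, L = Real.log q := ⟨_, rfl⟩
  have hL0 : 0 < L := by rw [hL]; exact Real.log_pos (by linarith)
  have hexpL : Real.exp L = q := by rw [hL]; exact Real.exp_log hq0
  obtain ⟨M, hM⟩ : ∃ M : ℝ, M = Real.log (q - 1) := ⟨_, rfl⟩
  have hM0 : 0 ≤ M := by rw [hM]; exact Real.log_nonneg hq1
  have hML : M ≤ L := by
    rw [hM, hL]
    exact Real.log_le_log (by linarith) (by linarith)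
  have hexpM : Real.exp M = q - 1 := by rw [hM]; exact Real.exp_log (by linarith)
  have hqpow : ∀ a : ℕ, (q : ℝ) ^ a = Real.exp (a * L) := by
    intro a
    rw [Real.exp_nat_mul, hexpL]
  rw [← hqq, ← hL]
  obtain ⟨E, hE⟩ : ∃ E : ℝ, E = EE q δ / L := ⟨_, rfl⟩
  rw [← hE]
  have hEL : E * L = EE q δ := by rw [hE]; field_simp
  have hE1 : E ≤ 1 := by
    rw [hE, div_le_one hL0, hL]
    exact EE_le hq2 h0 h1
  -- the smaller radius
  obtain ⟨ρ, hρ, hball⟩ := Metric.eventually_nhds_iff.1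
    (((EE_cont q).tendsto δ).eventually (lt_mem_nhds (show EE q δ - η * L / 8 < EE q δ by
      have : 0 < η * L := by positivity
      linarith)))
  obtain ⟨s, hs⟩ : ∃ s : ℝ, s = min (ρ / 2) (δ / 2) := ⟨_, rfl⟩
  have hs0 : 0 < s := by rw [hs]; exact lt_min (by positivity) (by positivity)
  have hsρ : s ≤ ρ / 2 := by rw [hs]; exact min_le_left _ _
  have hsδ : s ≤ δ / 2 := by rw [hs]; exact min_le_right _ _
  have hEs : EE q δ - η * L / 8 < EE q (δ - s) := by
    apply hball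
    rw [Real.dist_eq, show δ - s - δ = -s by ring, abs_neg, abs_of_pos hs0]
    linarith
  obtain ⟨η₁, hη₁, ev1⟩ := choose_low (x := δ - s) (by linarith) (by linarith)
    (by positivity : 0 < η * L / 16)
  obtain ⟨c', hc'⟩ : ∃ c' : ℝ, c' = min (s ^ 4 / (64 * L)) (η * s ^ 2 / 16) := ⟨_, rfl⟩
  have hc0 : 0 < c' := by rw [hc']; exact lt_min (by positivity) (by positivity)
  refine ⟨c' / (2 * L), by positivity, ?_⟩
  filter_upwards [ev1, ev_ge (1 / η₁), ev_ge (4 / η), ev_ge (8 / s ^ 2), ev_ge (8 * L / s ^ 2),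
    ev_ge (16 * L / (η * s ^ 2)), ev_ge (6 / c'), eventually_ge_atTop 1] with
    n g1 g2 g3 g4 g5 g6 g7 g8 k hkn hk
  have hnR : (1 : ℝ) ≤ n := by exact_mod_cast g8
  have hn0 : (0 : ℝ) < n := by linarith
  rw [div_le_iff₀ hη₁] at g2
  rw [div_le_iff₀ hη] at g3
  rw [div_le_iff₀ (by positivity)] at g4
  rw [div_le_iff₀ (by positivity)] at g5
  rw [div_le_iff₀ (by positivity)] at g6
  rw [div_le_iff₀ hc0] at g7
  -- parameters
  obtain ⟨t, ht⟩ : ∃ t : ℕ, t = ⌊(δ - s) * n⌋₊ := ⟨_, rfl⟩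
  have hδs : 0 ≤ (δ - s) * n := mul_nonneg (by linarith) hn0.le
  have ht1 : (t : ℝ) ≤ (δ - s) * n := by rw [ht]; exact Nat.floor_le hδs
  have ht2 : (δ - s) * n < t + 1 := by rw [ht]; exact Nat.lt_floor_add_one _
  obtain ⟨k₁, hk₁⟩ : ∃ k₁ : ℕ, k₁ = ⌈(1 - E + η / 2) * n⌉₊ := ⟨_, rfl⟩
  have hk1a : (1 - E + η / 2) * n ≤ k₁ := by rw [hk₁]; exact Nat.le_ceil _
  have hk1b : (k₁ : ℝ) < (1 - E + η / 2) * n + 1 := by
    rw [hk₁]
    exact Nat.ceil_lt_add_one (by apply mul_nonneg _ hn0.le; linarith)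
  have hηn : 0 < η * n := by positivity
  have e1 : (1 - E + η / 2) * n = (1 - E + η) * n - η * n / 2 := by ring
  have hk1k : k₁ ≤ k := by
    have h2 : (k₁ : ℝ) < k + 1 := by linarith
    have h3 : k₁ < k + 1 := by exact_mod_cast h2
    omega
  obtain ⟨k₂, hk₂⟩ : ∃ k₂ : ℕ, k = k₁ + k₂ := ⟨k - k₁, by omega⟩
  have hk2 : η / 4 * n ≤ k₂ := by
    have h2 : (k : ℝ) = k₁ + k₂ := by rw [hk₂]; push_cast; rfl
    rw [h2] at hk
    linarith
  obtain ⟨d, hd⟩ : ∃ d : ℕ, d = ⌈δ * n⌉₊ := ⟨_, rfl⟩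
  have hd1 : δ * n ≤ d := by rw [hd]; exact Nat.le_ceil _
  obtain ⟨m, hm⟩ : ∃ m : ℕ, m = ⌊s ^ 2 * n / (4 * L)⌋₊ := ⟨_, rfl⟩
  have hm1 : (m : ℝ) ≤ s ^ 2 * n / (4 * L) := by rw [hm]; exact Nat.floor_le (by positivity)
  have hm2 : s ^ 2 * n / (4 * L) < m + 1 := by rw [hm]; exact Nat.lt_floor_add_one _
  have hsn : 0 < s * n := by positivity
  have e2 : (δ - s) * n = δ * n - s * n := by ring
  have htd : t ≤ d := by
    have : (t : ℝ) ≤ d := by linarith
    exact_mod_cast this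
  obtain ⟨D, hD⟩ : ∃ D : ℕ, D = d - t := ⟨_, rfl⟩
  have hD1 : s * n ≤ D := by
    rw [hD, Nat.cast_sub htd]
    linarith
  -- the balls
  obtain ⟨B', hB'⟩ : ∃ B' : Finset (Fin n → F),
      B' = univ.filter (fun y : Fin n → F => hammingNorm y ≤ t) := ⟨_, rfl⟩
  obtain ⟨B, hB⟩ : ∃ B : Finset (Fin n → F),
      B = univ.filter (fun y : Fin n → F => hammingNorm y < d) := ⟨_, rfl⟩
  have hBB : ∀ b ∈ B', ∀ y, hammingDist b y < D → y ∈ B := by
    intro b hb y hy
    rw [hB', Finset.mem_filter] at hb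
    rw [hB, Finset.mem_filter]
    refine ⟨Finset.mem_univ _, ?_⟩
    have h2 : hammingDist 0 y ≤ hammingDist 0 b + hammingDist b y := hammingDist_triangle _ _ _
    rw [hammingDist_zero_left] at h2
    have := hb.2
    omega
  have hBv : q ^ n ≤ q ^ k₁ * B'.card := by
    have h2 : Real.exp ((Real.binEntropy (δ - s) - η * L / 16) * n) ≤ n.choose t := by
      apply g1
      rw [abs_le]
      constructor <;> nlinarith
    have h3 : (n.choose t : ℝ) * (q - 1) ^ t ≤ B'.card := by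
      have h4 := vol_ge (F := F) n t
      rw [← hB'] at h4
      have h5 : ((n.choose t * (Fintype.card F - 1) ^ t : ℕ) : ℝ) ≤ B'.card := by exact_mod_cast h4
      push_cast at h5
      rw [Nat.cast_sub (by omega), ← hqq] at h5
      push_cast at h5
      exact h5
    have h4 : (q - 1) ^ t = Real.exp (t * M) := by rw [Real.exp_nat_mul, hexpM]
    have h6 : Real.exp (((δ - s) * n - 1) * M) ≤ Real.exp (t * M) := by
      apply Real.exp_le_exp.2
      apply mul_le_mul_of_nonneg_right _ hM0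
      linarith
    have h7 : Real.exp ((Real.binEntropy (δ - s) - η * L / 16) * n) *
        Real.exp (((δ - s) * n - 1) * M) ≤ B'.card := by
      refine le_trans ?_ h3
      rw [h4]
      exact mul_le_mul h2 h6 (Real.exp_pos _).le (by positivity)
    rw [← Real.exp_add] at h7
    have h8 : EE q (δ - s) = (δ - s) * M + Real.binEntropy (δ - s) := by rw [hM]; rfl
    calc q ^ n = Real.exp (n * L) := hqpow n
      _ ≤ Real.exp (k₁ * L + ((Real.binEntropy (δ - s) - η * L / 16) * n +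
            ((δ - s) * n - 1) * M)) := by
          apply Real.exp_le_exp.2
          have h9 : (1 - E + η / 2) * n * L ≤ k₁ * L := mul_le_mul_of_nonneg_right hk1a hL0.le
          have h10 : (EE q δ - η * L / 8) * n ≤ EE q (δ - s) * n :=
            mul_le_mul_of_nonneg_right hEs.le hn0.le
          have h11 : (1 - E + η / 2) * n * L = n * L - EE q δ * n + η * L / 2 * n := by
            rw [← hEL]; ring
          have h12 : EE q (δ - s) * n = (δ - s) * n * M + Real.binEntropy (δ - s) * n := by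
            rw [h8]; ring
          have h13 : 4 * L ≤ n * η * L := mul_le_mul_of_nonneg_right g3 hL0.le
          have h14 : (EE q δ - η * L / 8) * n = EE q δ * n - n * η * L / 8 := by ring
          have h15 : (Real.binEntropy (δ - s) - η * L / 16) * n =
            Real.binEntropy (δ - s) * n - n * η * L / 16 := by ring
          have h16 : ((δ - s) * n - 1) * M = (δ - s) * n * M - M := by ring
          have h17 : η * L / 2 * n = n * η * L / 2 := by ring
          linarith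
      _ = q ^ k₁ * Real.exp (((Real.binEntropy (δ - s) - η * L / 16) * n +
            ((δ - s) * n - 1) * M)) := by
          rw [Real.exp_add (k₁ * L), hqpow]
      _ ≤ _ := mul_le_mul_of_nonneg_left h7 (by positivity)
  have hP := avoid_rare (F := F) (n := n) (k := k₁) (j := k₂) (m := m) (D := D) (by omega)
    (by omega) B' B hBB (by rw [← hqq]; exact hBv)
  rw [← hk₂, ← hqq] at hP
  -- the codes in question avoid the ball
  have hcodes : (num F n k (fun C => ∃ x : Fin n → F, ∀ w ∈ C, w + x ≠ 0 →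
      δ * n ≤ (hammingNorm (w + x) : ℝ)) : ℝ) ≤ num F n k (Avoid B) := by
    have : Finite (Submodule F (Fin n → F)) := Finite.of_injective
      (fun W => (W : Set (Fin n → F))) SetLike.coe_injective
    have h2 : num F n k (fun C => ∃ x : Fin n → F, ∀ w ∈ C, w + x ≠ 0 →
      δ * n ≤ (hammingNorm (w + x) : ℝ)) ≤ num F n k (Avoid B) := by
      unfold num
      refine Nat.card_le_card_of_injective (fun C => ⟨C.1, C.2.1, ?_⟩) ?_
      · obtain ⟨x, hx⟩ := C.2.2
        refine ⟨x, fun w hw hne hmem => ?_⟩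
        have h3 := hx w hw hne
        rw [hB, Finset.mem_filter] at hmem
        have h4 : hammingNorm (w + x) < ⌈δ * n⌉₊ := by rw [← hd]; exact hmem.2
        rw [Nat.lt_ceil] at h4
        linarith
      · intro C C' h
        have h' := Subtype.ext_iff.1 h
        exact Subtype.ext h'
    exact_mod_cast h2
  refine hcodes.trans (hP.trans ?_)
  apply mul_le_mul_of_nonneg_right _ (Nat.cast_nonneg _)
  -- first term
  have hA : ((q ^ m) ^ m)⁻¹ ≤ Real.exp (-(c' * (n : ℝ) ^ 2)) := by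
    rw [← pow_mul, hqpow, ← Real.exp_neg]
    apply Real.exp_le_exp.2
    have hcc : c' ≤ s ^ 4 / (64 * L) := by rw [hc']; exact min_le_left _ _
    have h2 : s ^ 2 * n / (8 * L) ≤ m := by
      have h3 : 1 ≤ s ^ 2 * n / (8 * L) := by
        rw [le_div_iff₀ (by positivity)]
        linarith
      have h4 : s ^ 2 * n / (4 * L) = 2 * (s ^ 2 * n / (8 * L)) := by
        field_simp
        ring
      rw [h4] at hm2
      linarith
    have h3 : (s ^ 2 * n / (8 * L)) * (s ^ 2 * n / (8 * L)) ≤ (m : ℝ) * m :=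
      mul_le_mul h2 h2 (by positivity) (by positivity)
    have h4 : (s ^ 2 * n / (8 * L)) * (s ^ 2 * n / (8 * L)) * L = s ^ 4 / (64 * L) * (n : ℝ) ^ 2 := by
      field_simp
      ring
    have h5 : (s ^ 2 * n / (8 * L)) * (s ^ 2 * n / (8 * L)) * L ≤ (m : ℝ) * m * L :=
      mul_le_mul_of_nonneg_right h3 hL0.le
    have h6 : c' * (n : ℝ) ^ 2 ≤ s ^ 4 / (64 * L) * (n : ℝ) ^ 2 :=
      mul_le_mul_of_nonneg_right hcc (by positivity)
    push_cast
    linarith
  -- second term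
  have hW : (1 + 2 * q ^ m) * Real.exp (-((D : ℝ) ^ 2 / n)) ≤ Real.exp (-(s ^ 2 * n / 2)) := by
    have h2 : q ^ m ≤ Real.exp (s ^ 2 * n / 4) := by
      rw [hqpow]
      apply Real.exp_le_exp.2
      rw [le_div_iff₀ (by positivity)] at hm1
      linarith
    have h3 : (3 : ℝ) ≤ Real.exp (s ^ 2 * n / 4) := by
      have := Real.add_one_le_exp (s ^ 2 * n / 4)
      linarith
    have h4 : s ^ 2 * n ≤ (D : ℝ) ^ 2 / n := by
      rw [le_div_iff₀ hn0]
      have : (s * n) * (s * n) ≤ (D : ℝ) * D := mul_le_mul hD1 hD1 (by positivity) (by positivity)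
      nlinarith
    have h5 : (1 : ℝ) ≤ Real.exp (s ^ 2 * n / 4) := by linarith
    calc (1 + 2 * q ^ m) * Real.exp (-((D : ℝ) ^ 2 / n)) ≤
          (Real.exp (s ^ 2 * n / 4) * Real.exp (s ^ 2 * n / 4)) * Real.exp (-(s ^ 2 * n)) := by
          apply mul_le_mul _ (Real.exp_le_exp.2 (by linarith)) (Real.exp_pos _).le (by positivity)
          calc 1 + 2 * q ^ m ≤ 3 * Real.exp (s ^ 2 * n / 4) := by linarith
            _ ≤ _ := mul_le_mul_of_nonneg_right h3 (Real.exp_pos _).le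
      _ = _ := by
          rw [← Real.exp_add, ← Real.exp_add]
          congr 1
          ring
  have hW0 : 0 ≤ (1 + 2 * q ^ m) * Real.exp (-((D : ℝ) ^ 2 / n)) := by positivity
  have hB2 : q ^ n * ((1 + 2 * q ^ m) * Real.exp (-((D : ℝ) ^ 2 / n))) ^ k₂ ≤
      Real.exp (-(c' * (n : ℝ) ^ 2)) := by
    have hcc : c' ≤ η * s ^ 2 / 16 := by rw [hc']; exact min_le_right _ _
    calc q ^ n * ((1 + 2 * q ^ m) * Real.exp (-((D : ℝ) ^ 2 / n))) ^ k₂ ≤
          q ^ n * Real.exp (-(s ^ 2 * n / 2)) ^ k₂ :=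
          mul_le_mul_of_nonneg_left (pow_le_pow_left₀ hW0 hW k₂) (by positivity)
      _ = Real.exp (n * L + k₂ * (-(s ^ 2 * n / 2))) := by
          rw [hqpow, ← Real.exp_nat_mul, ← Real.exp_add]
      _ ≤ _ := by
          apply Real.exp_le_exp.2
          have h2 : c' * (n : ℝ) ^ 2 ≤ η * s ^ 2 / 16 * (n : ℝ) ^ 2 :=
            mul_le_mul_of_nonneg_right hcc (by positivity)
          have h3 : η / 4 * n * (s ^ 2 * n / 2) ≤ k₂ * (s ^ 2 * n / 2) :=
            mul_le_mul_of_nonneg_right hk2 (by positivity)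
          have h4 : 16 * L * n ≤ n * (η * s ^ 2) * n := mul_le_mul_of_nonneg_right g6 hn0.le
          have h5 : η / 4 * n * (s ^ 2 * n / 2) = 2 * (η * s ^ 2 / 16 * (n : ℝ) ^ 2) := by ring
          have h6 : n * (η * s ^ 2) * n = 16 * (η * s ^ 2 / 16 * (n : ℝ) ^ 2) := by ring
          linarith
  have hfin : Real.exp (-(c' * (n : ℝ) ^ 2)) * 8 ≤ q ^ (-(c' / (2 * L) * (n : ℝ) ^ 2)) := by
    have h2 : (8 : ℝ) ≤ Real.exp 3 := by
      have h3 : (2 : ℝ) ≤ Real.exp 1 := by
        have := Real.add_one_le_exp (1 : ℝ)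
        linarith
      calc (8 : ℝ) = 2 ^ 3 := by norm_num
        _ ≤ Real.exp 1 ^ 3 := pow_le_pow_left₀ (by norm_num) h3 3
        _ = Real.exp 3 := by rw [← Real.exp_nat_mul]; norm_num
    rw [Real.rpow_def_of_pos hq0, ← hL]
    calc Real.exp (-(c' * (n : ℝ) ^ 2)) * 8 ≤ Real.exp (-(c' * (n : ℝ) ^ 2)) * Real.exp 3 :=
          mul_le_mul_of_nonneg_left h2 (Real.exp_pos _).le
      _ = Real.exp (-(c' * (n : ℝ) ^ 2) + 3) := by rw [Real.exp_add]
      _ ≤ _ := by
          apply Real.exp_le_exp.2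
          have h3 : L * -(c' / (2 * L) * (n : ℝ) ^ 2) = -(c' * (n : ℝ) ^ 2 / 2) := by
            field_simp
          rw [h3]
          have h4 : 6 * (1 : ℝ) ≤ n * c' * n := mul_le_mul g7 hnR (by norm_num) (by positivity)
          nlinarith
  calc 4 * (((q ^ m) ^ m)⁻¹ + q ^ n * ((1 + 2 * q ^ m) * Real.exp (-((D : ℝ) ^ 2 / n))) ^ k₂) ≤
        4 * (Real.exp (-(c' * (n : ℝ) ^ 2)) + Real.exp (-(c' * (n : ℝ) ^ 2))) := by linarith
    _ = Real.exp (-(c' * (n : ℝ) ^ 2)) * 8 := by ring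
    _ ≤ _ := hfin

end Pool.Agent.U137.GV
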