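import Pool.Agent.U137.GV.Sub

/-!
U137/GV (helper137): a lower bound for the number of codes with a coset of large minimum weight
(after U121/LC/Radius of helper121).
-/

set_option autoImplicit false

namespace Pool.Agent.U137.GV

open Finset

variable {F : Type} [Field F] [Fintype F]

/-- extension by zero -/
noncomputable def ext0 (F : Type) [Field F] (m e : ℕ) : (Fin e → F) →ₗ[F] (Fin (m + e) → F) :=
  LinearMap.pi (fun i => if h : m ≤ (i : ℕ) then LinearMap.proj ⟨i - m, by omega⟩ else 0)

omit [Fintype F] in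
lemma ext0_lt {m e : ℕ} (y : Fin e → F) (i : Fin (m + e)) (hi : (i : ℕ) < m) :
    ext0 F m e y i = 0 := by
  unfold ext0
  rw [LinearMap.pi_apply, dif_neg (by omega)]
  rfl

omit [Fintype F] in
lemma ext0_natAdd {m e : ℕ} (y : Fin e → F) (j : Fin e) :
    ext0 F m e y (Fin.natAdd m j) = y j := by
  unfold ext0
  rw [LinearMap.pi_apply, dif_pos (by simp)]
  rw [LinearMap.proj_apply]
  congr 1
  ext
  simp

omit [Fintype F] in
lemma ext0_inj (m e : ℕ) : Function.Injective (ext0 F m e) := by
  intro y y' h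
  ext j
  rw [← ext0_natAdd (m := m) y j, h, ext0_natAdd]

/-- **Codes with a coset of large minimum weight exist in number.** -/
lemma coset_ge [DecidableEq F] {n k m : ℕ} (hk : k + m ≤ n) {r : ℝ} (hr : r ≤ m) :
    (numAll F n k : ℝ) ≤ 4 * (Fintype.card F : ℝ) ^ (m * k) *
      num F n k (fun C => ∃ x : Fin n → F, ∀ w ∈ C, w + x ≠ 0 →
        r ≤ (hammingNorm (w + x) : ℝ)) := by
  obtain ⟨e, rfl⟩ : ∃ e, n = m + e := ⟨n - m, by omega⟩
  have hke : k ≤ e := by omega
  have h4 : numAll F e k ≤ num F (m + e) k (fun C => ∃ x : Fin (m + e) → F, ∀ w ∈ C,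
      w + x ≠ 0 → r ≤ (hammingNorm (w + x) : ℝ)) := by
    unfold numAll num
    have : Finite (Submodule F (Fin (m + e) → F)) :=
      Finite.of_injective (fun W => (W : Set (Fin (m + e) → F))) SetLike.coe_injective
    refine Nat.card_le_card_of_injective (fun C => ⟨C.1.map (ext0 F m e), ?_, fun _ => 1, ?_⟩) ?_
    · exact (LinearEquiv.finrank_eq (Submodule.equivMapOfInjective _ (ext0_inj m e)
        C.1)).symm.trans C.2
    · rintro w ⟨y, -, rfl⟩ -
      refine hr.trans ?_
      have h5 : m ≤ hammingNorm (ext0 F m e y + fun _ => 1) := by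
        unfold hammingNorm
        have h6 : ((univ : Finset (Fin m))).card = m := by simp
        conv_lhs => rw [← h6]
        refine Finset.card_le_card_of_injOn (Fin.castAdd e) ?_ ?_
        · intro i _
          rw [Finset.mem_coe, Finset.mem_filter]
          refine ⟨Finset.mem_univ _, ?_⟩
          rw [Pi.add_apply, ext0_lt y _ (by simp), zero_add]
          exact one_ne_zero
        · intro i _ j _ hij
          exact Fin.castAdd_injective m e hij
      exact_mod_cast h5
    · intro W W' h
      have h' := Subtype.ext_iff.1 h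
      exact Subtype.ext (Submodule.map_injective_of_injective (ext0_inj m e) h')
  have hq := two_le_card (F := F)
  have hq0 : (0 : ℝ) < Fintype.card F := by exact_mod_cast (by omega : 0 < Fintype.card F)
  obtain ⟨q, hqq⟩ : ∃ q : ℕ, q = Fintype.card F := ⟨_, rfl⟩
  have h5 : (numAll F (m + e) k : ℝ) * bb q k k = bb q (m + e) k := by
    rw [hqq]
    exact_mod_cast numAll_mul (by omega : k ≤ m + e)
  have h5' : (numAll F e k : ℝ) * bb q k k = bb q e k := by
    rw [hqq]
    exact_mod_cast numAll_mul hke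
  have h6 : (bb q (m + e) k : ℝ) ≤ (q : ℝ) ^ ((m + e) * k) := by exact_mod_cast bb_le _ (m + e) k
  have h7 := bb_ge' (q := q) (by omega) hke
  have h9 := bb_ge' (q := q) (by omega) (le_refl k)
  rw [← hqq] at hq0 ⊢
  have h10 : (0 : ℝ) < bb q k k := by
    have : (0 : ℝ) < (q : ℝ) ^ (k * k) := by positivity
    linarith
  have h12 : (numAll F e k : ℝ) ≤ num F (m + e) k (fun C => ∃ x : Fin (m + e) → F, ∀ w ∈ C,
      w + x ≠ 0 → r ≤ (hammingNorm (w + x) : ℝ)) := by exact_mod_cast h4
  refine le_trans ?_ (mul_le_mul_of_nonneg_left h12 (by positivity))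
  have h13 : (numAll F (m + e) k : ℝ) * bb q k k ≤
      (4 * (q : ℝ) ^ (m * k) * numAll F e k) * bb q k k := by
    calc (numAll F (m + e) k : ℝ) * bb q k k ≤ (q : ℝ) ^ (m * k) * (q : ℝ) ^ (e * k) := by
          rw [h5, ← pow_add, ← add_mul]; exact h6
      _ ≤ (q : ℝ) ^ (m * k) * (4 * bb q e k) := mul_le_mul_of_nonneg_left h7 (by positivity)
      _ = _ := by rw [← h5']; ring
  exact le_of_mul_le_mul_right h13 h10

end Pool.Agent.U137.GV
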